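import Pool.Agent.TH924.PG.Rou

set_option autoImplicit false

/-!
# Flat bundles in families at algebraic parameters, for example roots of unity

We consider polynomial families `∇_q = δ + A(q)` of flat bundles on an affine open part (coordinate
ring `O`, vector field `δ`) of a curve of any genus, spread out over a ring `R`, and specialize the
parameter `q` to algebraic numbers `θ`, roots of monic polynomials `f` over `R`.  The closed points
of `Spec R[θ]`, `R[θ] = R[X]/(f)`, are the closed points of the parameter line `Spec R[X]` which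
contain `f`.

As in `SparseParameters` the family has weighted growth `a / m < 1` for `q → ∞` and its symbol `S`
is not nilpotent; for example opers of order `n` with an accessory parameter (`a / m = 1 / n`).

The result: `∇_θ` has a nonzero `p`-curvature over every prime `p` with `N₀ < p < (m deg f - W) / a`
at which `f` is separable.  In particular for every `N₁` there are only finitely many roots of
unity `ζ` for which the `p`-curvatures of `∇_ζ` vanish over all primes `p > N₁`.
-/

namespace Pool.Agent.Results.MP_0707f5_ag.AlgebraicParameters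

open Polynomial

section defs

variable {R O : Type*} [CommRing R] [CommRing O] [Algebra R O] {n : ℕ}

/-- The extension of the derivation `δ` of `O` to `O[X]` with `δ X = 0`. -/
noncomputable def derX (δ : Derivation R O O) (f : O[X]) : O[X] :=
  ∑ l ∈ f.support, monomial l (δ (f.coeff l))

/-- The connection `δ + A(X)` on `O[X] ^ n`: the universal member of the family. -/
noncomputable def connX (δ : Derivation R O O) (A : Matrix (Fin n) (Fin n) O[X])
    (v : Fin n → O[X]) : Fin n → O[X] :=
  fun i => derX δ (v i) + A.mulVec v i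

/-- The `p`-curvature of the family `∇ = δ + A(X)` vanishes at the closed point `M` (with `p ∈ M`)
of the parameter line `Spec R[X]`: modulo `M` the derivation `δ ^ p` is a multiple `c δ` of `δ` and
`∇_δ ^ p = c ∇_δ` (`= ∇_{δ ^ p}`). -/
def PCurvZeroAt (δ : Derivation R O O) (A : Matrix (Fin n) (Fin n) O[X]) (p : ℕ) (M : Ideal R[X]) :
    Prop :=
  ∃ c : O[X], (∀ g : O[X], (derX δ)^[p] g - c * derX δ g ∈ M.map (mapRingHom (algebraMap R O))) ∧
    ∀ (v : Fin n → O[X]) (i : Fin n),
      (connX δ A)^[p] v i - c * connX δ A v i ∈ M.map (mapRingHom (algebraMap R O))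

/-- The family `δ + A(q)` has growth `a / m` and symbol `S` for the weights `w`: the polynomials
`T ^ (w j) * A_ij(T ^ m)` in `T` have degree at most `a + w i`, with coefficient `S_ij` at
`T ^ (a + w i)`. -/
def Growth (a m : ℕ) (w : Fin n → ℕ) (A : Matrix (Fin n) (Fin n) O[X])
    (S : Matrix (Fin n) (Fin n) O) : Prop :=
  ∀ i j, (X ^ w j * expand O m (A i j)).natDegree ≤ a + w i ∧
    (X ^ w j * expand O m (A i j)).coeff (a + w i) = S i j

end defs

/-- Let `R` be finitely generated over `ℤ` and let `O` be an `R`-algebra which is a domain of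
characteristic zero, finitely generated over `ℤ`, with an `R`-linear derivation `δ` without zeros.
Let `1 ≤ a < m`, let `w` be weights `≤ W` and let `S` be a matrix over `O` which is not nilpotent.

* There is `N₀` such that for every prime `p > N₀` there is a closed point `𝔪` of `Spec R` over `p`
  with the following property. For all families `δ + A(X)` of connections on `O ^ n` with growth
  `a / m` and symbol `S` and all monic polynomials `f` over `R` which are separable modulo `𝔪` and
  of degree greater than `(a p + W) / m`, the `p`-curvature is nonzero at some closed point of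
  `Spec R[X]/(f)` over `𝔪`.
* For every `N₁` there is `B` such that for all families `δ + A(X)` with growth `a / m` and symbol
  `S` and all `N > B`: for some prime `p > N₁`, prime to `N`, the `p`-curvature is nonzero at
  some closed point of `Spec R[X]/(Φ_N)` over `p`, `Φ_N` the cyclotomic polynomial. -/
theorem result {R O : Type*} [CommRing R] [Algebra.FiniteType ℤ R] [CommRing O] [Algebra R O]
    [IsDomain O] [CharZero O] [Algebra.FiniteType ℤ O] (δ : Derivation R O O)
    (hδ : Ideal.span (Set.range δ) = ⊤) {n : ℕ} (a m : ℕ) (ha : 1 ≤ a) (ham : a < m)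
    (w : Fin n → ℕ) (W : ℕ) (hW : ∀ i, w i ≤ W) (S : Matrix (Fin n) (Fin n) O)
    (hS : ¬ IsNilpotent S) :
    (∃ N₀ : ℕ, ∀ p : ℕ, p.Prime → N₀ < p → ∃ 𝔪 : Ideal R, 𝔪.IsMaximal ∧ (p : R) ∈ 𝔪 ∧
      ∀ A : Matrix (Fin n) (Fin n) O[X], Growth a m w A S →
      ∀ f : R[X], f.Monic → (f.map (Ideal.Quotient.mk 𝔪)).Separable →
        a * p + W < m * f.natDegree →
        ∃ M : Ideal R[X], M.IsMaximal ∧ 𝔪 ≤ M.comap C ∧ f ∈ M ∧ ¬ PCurvZeroAt δ A p M) ∧
    ∀ N₁ : ℕ, ∃ B : ℕ, ∀ A : Matrix (Fin n) (Fin n) O[X], Growth a m w A S → ∀ N : ℕ, B < N →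
      ∃ p : ℕ, p.Prime ∧ N₁ < p ∧ ¬ p ∣ N ∧
        ∃ M : Ideal R[X], M.IsMaximal ∧ (p : R[X]) ∈ M ∧ cyclotomic N R ∈ M ∧
          ¬ PCurvZeroAt δ A p M := by
  classical
  obtain ⟨N₀, hN₀⟩ := Pool.Agent.TH924.PG.algebraic δ hδ w hW ha ham hS
  constructor
  · refine ⟨N₀, fun p hp hlt => ?_⟩
    obtain ⟨𝔪, hmax, hpm, h⟩ := hN₀ p hp hlt
    refine ⟨𝔪, hmax, hpm, fun A hA f hf hsep hdeg => ?_⟩
    by_contra hcon
    push Not at hcon
    have := h A hA f hf hsep fun M hM hMC hMf => hcon M hM hMC hMf
    rw [mul_comm] at this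
    omega
  · intro N₁
    obtain ⟨B, hB⟩ := Pool.Agent.TH924.PG.bound_of_forall ham W (max N₀ N₁)
    refine ⟨B, fun A hA N hN => ?_⟩
    by_contra hcon
    push Not at hcon
    have hN0 : N ≠ 0 := by omega
    have : N ≤ B := by
      refine hB N hN0 fun p hp hlt hnd => ?_
      have hlt0 : N₀ < p := lt_of_le_of_lt (le_max_left _ _) hlt
      have hlt1 : N₁ < p := lt_of_le_of_lt (le_max_right _ _) hlt
      obtain ⟨𝔪, hmax, hpm, h⟩ := hN₀ p hp hlt0
      have hnt : Nontrivial R := (algebraMap R O).domain_nontrivial
      let fld : Field (R ⧸ 𝔪) := Ideal.Quotient.field 𝔪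
      have hNz : NeZero ((N : ℕ) : R ⧸ 𝔪) := by
        refine ⟨fun h0 => ?_⟩
        have h1 : (p : R ⧸ 𝔪) = 0 := by
          have := Ideal.Quotient.eq_zero_iff_mem.2 hpm
          rwa [map_natCast] at this
        have hchar : CharP (R ⧸ 𝔪) p := (CharP.charP_iff_prime_eq_zero hp).2 h1
        exact hnd ((CharP.cast_eq_zero_iff (R ⧸ 𝔪) p N).1 h0)
      have h2 := h A hA (cyclotomic N R) (cyclotomic.monic N R) (by
        rw [map_cyclotomic]
        exact separable_cyclotomic N (R ⧸ 𝔪)) (fun M hM hMC hMf => hcon p hp hlt1 hnd M hM (by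
          have h3 := hMC hpm
          rw [Ideal.mem_comap, map_natCast] at h3
          exact h3) hMf)
      rwa [natDegree_cyclotomic] at h2
    omega

end Pool.Agent.Results.MP_0707f5_ag.AlgebraicParameters
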