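import Pool.Agent.TH924.PG.Dich

set_option autoImplicit false

/-!
# Pencils of flat bundles with nilpotent Higgs field

Let `(E, ∇)` be a flat bundle on a curve `C` of any genus over a finitely generated field `K` of
characteristic zero, and let `Φ` be a nilpotent Higgs field (a linear map `E → E ⊗ Ω`), `Φ ^ e = 0`.
We consider the pencil `∇_q = ∇ + q Φ`, specialized to integers `q`, and prove a dichotomy:

* either the generic member (`q` transcendental) has constant semisimplification: it has a
  filtration with graded pieces defined over `\bar K (C)`;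
* or for `p > N₀` the `p`-curvatures of `∇_q` vanish for at most `(1 - 1 / e) (p + 1)` classes `q`
  modulo `p`, and the integers `q` for which the `p`-curvatures vanish for unusually many `p` are
  sparse.

There is no condition on `∇`, on its monodromy or on the relative position of `∇` and `Φ`.
-/

namespace Pool.Agent.Results.MP_0707f5_ag.NilpotentPencils

open Polynomial Module Finset Pool.Agent.W77.IM

universe u v w

/-- The member `∇ + c Φ` of a pencil. -/
def member {F V : Type*} [Field F] [AddCommGroup V] [Module F V] (nabla : V →+ V) (Φ : V →ₗ[F] V)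
    (c : F) : V →+ V :=
  nabla + (c • Φ).toAddMonoidHom

/-- The `p`-curvatures of the lattice `E` (with `A = R[x, 1/T]`, `∇ = ∇_{d/dx}`, so that the
`p`-curvature is `∇ ^ p`) vanish over `p`: for every irreducible component of the fibre of `Spec R`
over `p`, with generic point `𝔭`, there is a dense open subset (`g ≠ 0`) such that `∇ ^ p` maps `E`
into `𝔪 E` for all closed points `𝔪` in it. (If `R` is a ring of integers in a number field, with
finitely many primes inverted: for all closed points `𝔪` over `p`.) -/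
def VanishingOver {R F V : Type*} [CommRing R] [Field F] [Algebra R F] [AddCommGroup V]
    [Module F V] {A : Subalgebra R F} (nabla : V →+ V) (E : Submodule A V) (p : ℕ) : Prop :=
  ∀ 𝔭 ∈ (Ideal.span {(p : R)}).minimalPrimes, ∃ g : R, g ∉ 𝔭 ∧ ∀ 𝔪 : Ideal R, 𝔪.IsMaximal →
    𝔭 ≤ 𝔪 → g ∉ 𝔪 → ∀ v ∈ E, nabla^[p] v ∈ 𝔪.map (algebraMap R A) • E

open Classical in
/-- The sum of `log p / p` over the primes `p ≤ Y` over which the `p`-curvatures do not vanish. -/
noncomputable def badSum {R F V : Type*} [CommRing R] [Field F] [Algebra R F] [AddCommGroup V]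
    [Module F V] {A : Subalgebra R F} (nabla : V →+ V) (E : Submodule A V) (Y : ℝ) : ℝ :=
  ∑ p ∈ Icc 1 ⌊Y⌋₊ with p.Prime ∧ ¬ VanishingOver nabla E p, Real.log p / p

/-- Let `R` be a domain of characteristic zero, finitely generated over `ℤ`, let `F` be a field
containing `R` with an `R`-linear derivation `δ` and `δ x = 1`, let `T ∈ R[x]` be nonzero, let `V`
be a finite dimensional vector space over `F` with a connection `∇` and a linear map `Φ` such that
`Φ ^ e = 0`, `e ≥ 2`, and let `E ⊆ V` be a finitely generated `R[x, 1/T]`-module which is stable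
under `∇` and `Φ` and generates `V`.  Let `t ∈ F` be a constant which is transcendental over `R`,
and let `F₀` be a `δ`-stable subfield of `F` containing `R` and `x`, with algebraically closed field
of constants, such that the field `F` is generated by `F₀` and by constants.

(The case to have in mind: `C` is a curve over `K = Frac R` with a function `x`, étale over the part
`T ≠ 0` of the line, `E` is a flat bundle with a nilpotent Higgs field on this part of `C`, spread
out over `Spec R`, `F₀ = \bar K (C)`, `F = F₀(t)` with `t` transcendental over `F₀`, and `V` is the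
generic fibre of `E` tensored with `F`.)

Then either the generic member `∇ + t Φ` of the pencil has a filtration by subconnections with
graded pieces defined over `F₀`, or the following holds.

* There is `N₀` such that for every prime `p > N₀` the `p`-curvatures over `p` of `∇ + q Φ` vanish
  for at most `(1 - 1 / e) (p + 1)` classes of integers `q` modulo `p`.
* If `1 - 1 / e < β ≤ 1`, `θ (1 + (β - (1 - 1 / e))² / ((1 - 1 / e) (1 / e))) > 1` (for `β = 1` this
  is `θ > 1 - 1 / e`) and `K` is real, there is `C` such that for `X ≥ 2` at most `C X ^ θ` integers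
  `q` with `|q| ≤ X` satisfy `∑ log p / p ≤ (1 - β) θ log X + K`, where the sum is over the primes
  `p ≤ X ^ θ` over which the `p`-curvatures of `∇ + q Φ` do not vanish. -/
theorem result {R : Type u} [CommRing R] [IsDomain R] [CharZero R] [Algebra.FiniteType ℤ R]
    {F : Type v} [Field F] [Algebra R F] (hR : Function.Injective (algebraMap R F))
    (δ : Derivation R F F) (x : F) (hx : δ x = 1) (T : R[X]) (hT : T ≠ 0)
    {V : Type w} [AddCommGroup V] [Module F V] [FiniteDimensional F V]
    (nabla : V →+ V) (hnabla : ∀ (f : F) (v : V), nabla (f • v) = δ f • v + f • nabla v)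
    (Φ : V →ₗ[F] V) {e : ℕ} (he : 2 ≤ e) (hΦe : Φ ^ e = 0)
    (E : Submodule (CoordRing x T R) V) (hfg : E.FG) (hE : ∀ v ∈ E, nabla v ∈ E)
    (hΦ : ∀ v ∈ E, Φ v ∈ E) (hspan : Submodule.span F (E : Set V) = ⊤)
    (t : F) (hδt : δ t = 0) (ht : Transcendental R t)
    (F₀ : Subfield F) (hF₀ : ∀ a : R, algebraMap R F a ∈ F₀) (hxF₀ : x ∈ F₀)
    (hδF₀ : ∀ f ∈ F₀, δ f ∈ F₀) (hclosed : IsAlgClosed (constField δ F₀))
    (hgen : Subfield.closure ({c | δ c = 0} ∪ (F₀ : Set F)) = ⊤) :
    GradedOver (member nabla Φ t) F₀ ∨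
      ((∃ N₀ : ℕ, ∀ p : ℕ, p.Prime → N₀ < p →
        Set.ncard {c : ZMod p | ∃ q : ℤ, (q : ZMod p) = c ∧
          VanishingOver (member nabla Φ (q : F)) E p} * e ≤ (e - 1) * (p + 1)) ∧
      ∀ β θ K : ℝ, 1 - 1 / (e : ℝ) < β → β ≤ 1 →
        1 < θ * (1 + (β - (1 - 1 / (e : ℝ))) ^ 2 / ((1 - 1 / (e : ℝ)) * (1 / e))) →
        ∃ C : ℝ, ∀ X : ℝ, 2 ≤ X →
          (Set.ncard {q : ℤ | |(q : ℝ)| ≤ X ∧
            badSum (member nabla Φ (q : F)) E (X ^ θ) ≤ (1 - β) * θ * Real.log X + K} : ℝ) ≤
              C * X ^ θ) := by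
  classical
  have hΦe' : ∀ v, (⇑Φ)^[e] v = 0 := by
    intro v
    rw [← Module.End.pow_apply, hΦe, LinearMap.zero_apply]
  rcases Pool.Agent.TH924.PG.dich hR δ x hx T hT nabla hnabla Φ (by omega) hΦe' E hfg hE hΦ hspan t
    hδt ht F₀ hF₀ hxF₀ hδF₀ hclosed hgen with h | ⟨N₀, hN₀⟩
  · exact Or.inl h
  · right
    have he0 : (0 : ℝ) < e := by
      have : 0 < e := by omega
      exact_mod_cast this
    have hα : (((e - 1 : ℕ) : ℝ)) / (e : ℝ) = 1 - 1 / (e : ℝ) := by
      rw [Nat.cast_sub (by omega)]
      field_simp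
      simp
    have hα2 : 1 - (((e - 1 : ℕ) : ℝ)) / (e : ℝ) = 1 / (e : ℝ) := by rw [hα]; ring
    refine ⟨⟨N₀, fun p hp hlt => ?_⟩, fun β θ K hβ hβ1 hθ => ?_⟩
    · have hpF : NeZero p := ⟨hp.ne_zero⟩
      have h := hN₀ p hp hlt (Finset.univ.filter fun c : ZMod p => ∃ q : ℤ, (q : ZMod p) = c ∧
        VanishingOver (member nabla Φ (q : F)) E p) ?_
      · rw [← Set.ncard_coe_finset, Finset.coe_filter, show {c : ZMod p | c ∈ (Finset.univ :
          Finset (ZMod p)) ∧ ∃ q : ℤ, (q : ZMod p) = c ∧ VanishingOver (member nabla Φ (q : F)) E p}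
          = {c : ZMod p | ∃ q : ℤ, (q : ZMod p) = c ∧ VanishingOver (member nabla Φ (q : F)) E p} by
            ext c; simp] at h
        rw [mul_add, mul_one]
        exact h
      · intro c hc
        exact (Finset.mem_filter.1 hc).2
    · obtain ⟨C, hC⟩ := Pool.Agent.TH924.PG.deviate2 (a := e - 1) (m := e) (by omega) (by omega)
        (e - 1) N₀ (β := β) (θ := θ) K (by rw [hα]; exact hβ) hβ1 (by rw [hα2, hα]; exact hθ)
      exact ⟨C, fun X hX => hC (fun p q => VanishingOver (member nabla Φ (q : F)) E p) hN₀ X hX⟩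

end Pool.Agent.Results.MP_0707f5_ag.NilpotentPencils
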