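import Pool.Agent.TH924.PG.Main

set_option autoImplicit false

/-!
# Flat bundles in families: parameters with vanishing `p`-curvatures are sparse

Let `C` be a curve of any genus over a finitely generated field of characteristic zero, spread out
over a ring `R`.  On an affine open part of `C` we may choose a nowhere vanishing vector field `δ`
and trivialize the bundle; let `O` be the coordinate ring.  We consider polynomial families
`∇_q = δ + A(q)`, `A(q) = A_0 + q A_1 + ⋯ + q^d A_d`, of connections on `O ^ n`, where the `A_k`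
are any matrices over `O`, and specialize the parameter `q` to integers.

The assumption concerns the growth for `q → ∞`: with weights `w_i` of the basis vectors the family
has growth `a / m < 1` and its symbol `S` (the leading part for `q = T ^ m`) is not nilpotent.
Examples:

* opers: a differential operator `L_0` of order `n` on `C` with an accessory parameter,
  `L_q = L_0 + q r`, `r ≠ 0` any function; here `a / m = 1 / n` and `S ^ n = ± r`;
* bundles `(E, ∇_0)` of rank two and `∇_q = ∇_0 + q Φ`, where the Higgs field `Φ ≠ 0` is nilpotent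
  and its kernel is not stable under `∇_0`; here `a / m = 1 / 2`;
* `∇_q = ∇_0 + q Φ`, where `∇_0` satisfies Griffiths transversality for a filtration of `E`
  (`a` steps) and `Φ` moves the filtration by `m - a` steps in the other direction, and the
  graded Higgs field `S = gr ∇_0 + gr Φ` is not nilpotent.

The result: modulo `p` the `p`-curvature of `∇_q` vanishes for at most `(a / m) p + O(1)` classes
`q`, and integers `q` for which the `p`-curvatures vanish for unusually many `p` are sparse.
-/

namespace Pool.Agent.Results.MP_0707f5_ag.SparseParameters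

open Polynomial Finset

section defs

variable {R O : Type*} [CommRing R] [CommRing O] [Algebra R O] {n : ℕ}

/-- The connection `δ + A` on `O ^ n`. -/
def conn (δ : Derivation R O O) (A : Matrix (Fin n) (Fin n) O) (v : Fin n → O) : Fin n → O :=
  fun i => δ (v i) + A.mulVec v i

/-- The `p`-curvature of the connection `∇ = δ + A` vanishes modulo the prime ideal `𝔭` of `R`
(`p ∈ 𝔭`): modulo `𝔭` the derivation `δ ^ p` is a multiple `c δ` of `δ` and
`∇_δ ^ p = c ∇_δ` (`= ∇_{δ ^ p}`). -/
def PCurvZero (δ : Derivation R O O) (A : Matrix (Fin n) (Fin n) O) (p : ℕ) (𝔭 : Ideal R) : Prop :=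
  ∃ c : O, (∀ f : O, (⇑δ)^[p] f - c * δ f ∈ 𝔭.map (algebraMap R O)) ∧
    ∀ (v : Fin n → O) (i : Fin n),
      (conn δ A)^[p] v i - c * conn δ A v i ∈ 𝔭.map (algebraMap R O)

/-- The `p`-curvatures of `δ + A` vanish over `p`: modulo every minimal prime `𝔭` of `R / p R`.
(If `R` is a ring of integers in a number field, with finitely many primes inverted, these are the
closed points over `p`; in general they are the generic points of the fibre over `p`.) -/
def Vanishing (δ : Derivation R O O) (A : Matrix (Fin n) (Fin n) O) (p : ℕ) : Prop :=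
  ∀ 𝔭 ∈ (Ideal.span {(p : R)}).minimalPrimes, PCurvZero δ A p 𝔭

/-- The family `δ + A(q)` has growth `a / m` and symbol `S` for the weights `w`: the polynomials
`T ^ (w j) * A_ij(T ^ m)` in `T` have degree at most `a + w i`, with coefficient `S_ij` at
`T ^ (a + w i)`. -/
def Growth (a m : ℕ) (w : Fin n → ℕ) (A : Matrix (Fin n) (Fin n) O[X])
    (S : Matrix (Fin n) (Fin n) O) : Prop :=
  ∀ i j, (X ^ w j * expand O m (A i j)).natDegree ≤ a + w i ∧
    (X ^ w j * expand O m (A i j)).coeff (a + w i) = S i j

open Classical in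
/-- The sum of `log p / p` over the primes `p ≤ Y` over which the `p`-curvatures of `δ + A` do not
vanish. -/
noncomputable def badSum (δ : Derivation R O O) (A : Matrix (Fin n) (Fin n) O) (Y : ℝ) : ℝ :=
  ∑ p ∈ Icc 1 ⌊Y⌋₊ with p.Prime ∧ ¬ Vanishing δ A p, Real.log p / p

end defs

/-- Let `O` be a domain of characteristic zero, finitely generated over `ℤ`, with an `R`-linear
derivation `δ` without zeros, let `1 ≤ a < m`, let `w` be weights `≤ W` and let `S` be a matrix over
`O` which is not nilpotent. There is `N₀` such that for all families `δ + A(q)` of connections on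
`O ^ n` with growth `a / m` and symbol `S`

* for every prime `p > N₀` the `p`-curvatures over `p` vanish for at most `(a p + W) / m`
  classes `q` modulo `p`;
* if `a / m < β ≤ 1` and `θ (1 + (β - a / m)² / ((a / m) (1 - a / m))) > 1` (for `β = 1` this is
  `θ > a / m`) and `K` is real, at most `C X ^ θ` integers `q` with `|q| ≤ X` satisfy
  `∑ log p / p ≤ (1 - β) θ log X + K`, where the sum is over the primes `p ≤ X ^ θ` over which the
  `p`-curvatures do not vanish; here `X ≥ 2` is arbitrary and `C` does not depend on `X` and on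
  the family. -/
theorem result {R O : Type*} [CommRing R] [CommRing O] [Algebra R O] [IsDomain O] [CharZero O]
    [Algebra.FiniteType ℤ O] (δ : Derivation R O O) (hδ : Ideal.span (Set.range δ) = ⊤) {n : ℕ}
    (a m : ℕ) (ha : 1 ≤ a) (ham : a < m) (w : Fin n → ℕ) (W : ℕ) (hW : ∀ i, w i ≤ W)
    (S : Matrix (Fin n) (Fin n) O) (hS : ¬ IsNilpotent S) :
    (∃ N₀ : ℕ, ∀ A : Matrix (Fin n) (Fin n) O[X], Growth a m w A S →
      ∀ p : ℕ, p.Prime → N₀ < p →
        Set.ncard {t : ZMod p | ∃ q : ℤ, (q : ZMod p) = t ∧
          Vanishing δ (A.map (eval (q : O))) p} * m ≤ a * p + W) ∧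
    ∀ β θ K : ℝ, (a : ℝ) / m < β → β ≤ 1 →
      1 < θ * (1 + (β - a / m) ^ 2 / ((a / m) * (1 - a / m))) →
      ∃ C : ℝ, ∀ A : Matrix (Fin n) (Fin n) O[X], Growth a m w A S → ∀ X : ℝ, 2 ≤ X →
        (Set.ncard {q : ℤ | |(q : ℝ)| ≤ X ∧
          badSum δ (A.map (eval (q : O))) (X ^ θ) ≤ (1 - β) * θ * Real.log X + K} : ℝ) ≤
            C * X ^ θ := by
  classical
  obtain ⟨N₀, hN₀⟩ := Pool.Agent.TH924.PG.classes δ hδ w hW ha ham hS
  constructor
  · refine ⟨N₀, fun A hA p hp hlt => ?_⟩
    have hpF : NeZero p := ⟨hp.ne_zero⟩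
    have h := hN₀ A hA p hp hlt (Finset.univ.filter fun t : ZMod p => ∃ q : ℤ, (q : ZMod p) = t ∧
      Vanishing δ (A.map (eval (q : O))) p) ?_
    · rwa [← Set.ncard_coe_finset, Finset.coe_filter, show {t : ZMod p | t ∈ (Finset.univ :
        Finset (ZMod p)) ∧ ∃ q : ℤ, (q : ZMod p) = t ∧ Vanishing δ (A.map (eval (q : O))) p} =
        {t : ZMod p | ∃ q : ℤ, (q : ZMod p) = t ∧ Vanishing δ (A.map (eval (q : O))) p} by
          ext t; simp] at h
    · intro t ht
      exact (Finset.mem_filter.1 ht).2
  · intro β θ K hβ hβ1 hθ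
    obtain ⟨C, hC⟩ := Pool.Agent.TH924.PG.deviate2 ha ham W N₀ K hβ hβ1 hθ
    refine ⟨C, fun A hA X hX => ?_⟩
    exact hC (fun p q => Vanishing δ (A.map (eval (q : O))) p) (hN₀ A hA) X hX

end Pool.Agent.Results.MP_0707f5_ag.SparseParameters
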